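import Mathlib
import Pool.Agent.V1136.Parab

/-!
# MP_e0c8e7: finitely generated soluble groups in `(𝔈₂𝔑, ∞)*` need not lie in `𝔈₂(𝔉𝔑)`
-/

set_option autoImplicit false

namespace Pool.Agent.Results.MP_e0c8e7_al.ParabolaDihedral

open Pool.Agent.V1136.Parab DihedralGroup

/-- The group `H` has a normal subgroup of exponent dividing `m` with nilpotent quotient. -/
def ExponentByNilpotent (m : ℕ) (H : Type) [Group H] : Prop :=
  ∃ (K : Subgroup H) (_ : K.Normal), (∀ k ∈ K, k ^ m = 1) ∧ Group.IsNilpotent (H ⧸ K)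

/-- The group `H` is finite-by-nilpotent. -/
def FiniteByNilpotent (H : Type) [Group H] : Prop :=
  ∃ (F : Subgroup H) (_ : F.Normal), Finite F ∧ Group.IsNilpotent (H ⧸ F)

/-- The group `H` has a normal subgroup of exponent dividing `m` whose quotient is
finite-by-nilpotent. -/
def ExponentByFiniteByNilpotent (m : ℕ) (H : Type) [Group H] : Prop :=
  ∃ (K : Subgroup H) (_ : K.Normal), (∀ k ∈ K, k ^ m = 1) ∧ FiniteByNilpotent (H ⧸ K)

/-- The sequence of dihedral groups. -/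
def nn (_ : ℕ) : ℕ := 4

/-! ### The finite quotients -/

/-- The base of the `k`-th finite quotient. -/
abbrev BW (k : ℕ) : Type := L k → DihedralGroup (nn k)

/-- The shift on the base of the `k`-th finite quotient. -/
def shiftW (k : ℕ) : Multiplicative (L k) →* MulAut (BW k) where
  toFun w :=
    { toFun := fun β p => β (p - w.toAdd)
      invFun := fun β p => β (p + w.toAdd)
      left_inv := fun β => by funext p; simp
      right_inv := fun β => by funext p; simp
      map_mul' := fun _ _ => rfl }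
  map_one' := by
    ext β p
    change β (p - 0) = β p
    rw [sub_zero]
  map_mul' v w := by
    ext β p
    change β (p - (v.toAdd + w.toAdd)) = β (p - v.toAdd - w.toAdd)
    congr 1
    abel

/-- The `k`-th finite quotient. -/
abbrev W (k : ℕ) : Type := BW k ⋊[shiftW k] Multiplicative (L k)

/-- The projection to the `k`-th finite quotient. -/
def proj (k : ℕ) : Gam nn →* W k :=
  SemidirectProduct.map (Pi.evalMonoidHom (fun k => L k → DihedralGroup (nn k)) k)
    (AddMonoidHom.toMultiplicative (red k)) (fun _ => rfl)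

instance (k : ℕ) : NeZero (nn k) := ⟨by unfold nn; norm_num⟩

theorem card_W (k : ℕ) : ∃ s, Nat.card (W k) = 2 ^ s := by
  have h1 : Nat.card (L k) = 2 ^ (k ^ 4 * 2) := by
    rw [Nat.card_prod, Nat.card_zmod, ← pow_two, Nn, ← pow_mul]
  refine ⟨3 * Nat.card (L k) + k ^ 4 * 2, ?_⟩
  have h0 : Nat.card (Multiplicative (L k)) = Nat.card (L k) := rfl
  rw [SemidirectProduct.card, h0, Nat.card_fun, DihedralGroup.nat_card]
  have h2 : 2 * nn k = 2 ^ 3 := rfl
  rw [h2, ← pow_mul, pow_add, ← h1]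

instance (k : ℕ) : Group.IsNilpotent (W k) := by
  haveI : Fact (Nat.Prime 2) := ⟨Nat.prime_two⟩
  obtain ⟨s, hs⟩ := card_W k
  haveI : Finite (W k) := Nat.finite_of_card_ne_zero (by rw [hs]; positivity)
  exact (IsPGroup.of_card hs).isNilpotent

theorem positive (H : Subgroup (G nn)) (K₀ : ℕ)
    (h : ∀ g ∈ H, ∀ k : ℕ, K₀ < k → ∀ p, (g : Gam nn).left k p ^ 2 = 1) :
    ExponentByNilpotent 2 H := by
  let f : H →* (∀ k : Fin (K₀ + 1), W k) × Multiplicative (ℤ × ℤ) :=
    ((Pi.monoidHom fun k : Fin (K₀ + 1) => proj k).prod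
      (SemidirectProduct.rightHom : Gam nn →* Multiplicative (ℤ × ℤ))).comp
      ((G nn).subtype.comp H.subtype)
  refine ⟨f.ker, inferInstance, ?_, ?_⟩
  · rintro ⟨⟨g, hgG⟩, hg⟩ hk
    rw [MonoidHom.mem_ker] at hk
    have h1 : g.right = 1 := congrArg Prod.snd hk
    have h2 : ∀ k : ℕ, k ≤ K₀ → g.left k = 1 := fun k hkK =>
      congrArg SemidirectProduct.left (congrFun (congrArg Prod.fst hk) ⟨k, Nat.lt_succ_of_le hkK⟩)
    apply Subtype.ext
    apply Subtype.ext
    change g ^ 2 = 1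
    have h3 : g = SemidirectProduct.inl g.left := SemidirectProduct.ext rfl h1
    rw [h3, ← map_pow]
    have h4 : g.left ^ 2 = 1 := by
      funext k p
      change g.left k p ^ 2 = 1
      by_cases hkK : k ≤ K₀
      · rw [h2 k hkK]
        simp
      · exact h ⟨g, hgG⟩ hg k (by omega) p
    rw [h4, map_one]
  · refine Subgroup.isNilpotent_of_ker_le_center (QuotientGroup.kerLift f) ?_
    rw [(MonoidHom.ker_eq_bot_iff _).2 (QuotientGroup.kerLift_injective f)]
    exact bot_le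

theorem y_mem (c k : ℕ) : SemidirectProduct.inl (yB nn c k) ∈ G nn := by
  have h1 : (SemidirectProduct.inl (yB nn c k) : Gam nn) = SemidirectProduct.inl (zB nn c) *
      (tr nn ((k : ℤ), (k : ℤ) ^ 2) * SemidirectProduct.inl (zB nn c) *
        (tr nn ((k : ℤ), (k : ℤ) ^ 2))⁻¹) := by
    rw [tr_conj, ← map_mul]; rfl
  rw [h1]
  exact mul_mem (zB_mem nn c) (mul_mem (mul_mem (tr_mem nn _) (zB_mem nn c))
    (inv_mem (tr_mem nn _)))

theorem sy_mem (w : ℤ × ℤ) (c k : ℕ) :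
    SemidirectProduct.inl (shift nn (Multiplicative.ofAdd w) (yB nn c k)) ∈ G nn := by
  rw [← tr_conj]
  exact mul_mem (mul_mem (tr_mem nn _) (y_mem c k)) (inv_mem (tr_mem nn _))

theorem sq_eq (a b : B nn) (ha : SemidirectProduct.inl a ∈ G nn)
    (hb : SemidirectProduct.inl b ∈ G nn)
    (h : ((⟨SemidirectProduct.inl a, ha⟩ : G nn)⁻¹ * ⟨SemidirectProduct.inl b, hb⟩) ^ 2 = 1)
    (k : ℕ) (p : L k) : ((a k p)⁻¹ * b k p) ^ 2 = 1 := by
  have h1 : ((SemidirectProduct.inl a : Gam nn)⁻¹ * SemidirectProduct.inl b) ^ 2 = 1 :=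
    congrArg Subtype.val h
  rw [← map_inv, ← map_mul, ← map_pow] at h1
  have h2 : (a⁻¹ * b) ^ 2 = 1 := SemidirectProduct.inl_injective (h1.trans (map_one _).symm)
  exact congrFun (congrFun h2 k) p

theorem negative : ¬ ExponentByFiniteByNilpotent 2 (G nn) := by
  rintro ⟨K, hK, hK2, F, hF, hFfin, hnil⟩
  -- the preimage of `F`
  have hNn : (F.comap (QuotientGroup.mk' K)).Normal := inferInstance
  have hnil' : Group.IsNilpotent (G nn ⧸ F.comap (QuotientGroup.mk' K)) := by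
    let φ : G nn ⧸ F.comap (QuotientGroup.mk' K) →* (G nn ⧸ K) ⧸ F :=
      QuotientGroup.map _ _ (QuotientGroup.mk' K) le_rfl
    have hφ : φ.ker ≤ Subgroup.center _ := by
      intro x hx
      obtain ⟨g, rfl⟩ := QuotientGroup.mk_surjective x
      have h1 : ((g : G nn ⧸ K) : (G nn ⧸ K) ⧸ F) = 1 := hx
      rw [QuotientGroup.eq_one_iff] at h1
      have h2 : (g : G nn ⧸ F.comap (QuotientGroup.mk' K)) = 1 :=
        (QuotientGroup.eq_one_iff _).2 h1
      rw [h2]
      exact one_mem _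
    exact Subgroup.isNilpotent_of_ker_le_center φ hφ
  obtain ⟨c, hc⟩ := exists_zB_mem nn (F.comap (QuotientGroup.mk' K)) hnil'
  -- choose `k` large
  set f : ℕ := Nat.card F with hf
  set k : ℕ := f * (c + 1) + c + 2 with hkdef
  have hk1 : 1 ≤ k := by omega
  have hkN : k < Nn k := lt_of_le_of_lt (Nat.le_self_pow (by norm_num) k) (pow_four_lt k)
  have hN : c + 1 < Nn k := by omega
  -- the elements `y_i`
  have hy : (⟨SemidirectProduct.inl (yB nn c k), y_mem c k⟩ : G nn) ∈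
      F.comap (QuotientGroup.mk' K) := by
    have h1 : (⟨SemidirectProduct.inl (yB nn c k), y_mem c k⟩ : G nn) =
        ⟨SemidirectProduct.inl (zB nn c), zB_mem nn c⟩ *
        (⟨tr nn ((k : ℤ), (k : ℤ) ^ 2), tr_mem nn _⟩ *
          ⟨SemidirectProduct.inl (zB nn c), zB_mem nn c⟩ *
          ⟨tr nn ((k : ℤ), (k : ℤ) ^ 2), tr_mem nn _⟩⁻¹) := by
      apply Subtype.ext
      change (SemidirectProduct.inl (yB nn c k) : Gam nn) = SemidirectProduct.inl (zB nn c) *
        (tr nn ((k : ℤ), (k : ℤ) ^ 2) * SemidirectProduct.inl (zB nn c) *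
          (tr nn ((k : ℤ), (k : ℤ) ^ 2))⁻¹)
      rw [tr_conj, ← map_mul]; rfl
    rw [h1]
    exact mul_mem hc (hNn.conj_mem _ hc _)
  have hyw : ∀ w : ℤ × ℤ, (⟨_, sy_mem w c k⟩ : G nn) ∈ F.comap (QuotientGroup.mk' K) := by
    intro w
    have h1 : (⟨_, sy_mem w c k⟩ : G nn) = ⟨tr nn w, tr_mem nn w⟩ *
        ⟨SemidirectProduct.inl (yB nn c k), y_mem c k⟩ * ⟨tr nn w, tr_mem nn w⟩⁻¹ := by
      apply Subtype.ext
      exact (tr_conj nn w _).symm
    rw [h1]
    exact hNn.conj_mem _ hy _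
  -- pigeonhole
  let g : Fin (f + 1) → F := fun i =>
    ⟨QuotientGroup.mk' K ⟨_, sy_mem (((i : ℕ) : ℤ) * ((c : ℤ) + 1), 0) c k⟩, hyw _⟩
  have hg : ¬ Function.Injective g := by
    intro hinj
    have h1 := Nat.card_le_card_of_injective g hinj
    rw [Nat.card_eq_fintype_card, Fintype.card_fin] at h1
    omega
  have hex : ∃ i j : Fin (f + 1), i < j ∧ g i = g j := by
    rw [Function.Injective] at hg
    push Not at hg
    obtain ⟨i, j, hij, hne⟩ := hg
    rcases lt_or_gt_of_ne hne with h | h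
    · exact ⟨i, j, h, hij⟩
    · exact ⟨j, i, h, hij.symm⟩
  obtain ⟨i, j, hij, hgij⟩ := hex
  have h1 : (QuotientGroup.mk' K ⟨_, sy_mem (((i : ℕ) : ℤ) * ((c : ℤ) + 1), 0) c k⟩) =
      QuotientGroup.mk' K ⟨_, sy_mem (((j : ℕ) : ℤ) * ((c : ℤ) + 1), 0) c k⟩ :=
    congrArg Subtype.val hgij
  have h2 := QuotientGroup.eq.1 h1
  set βi := shift nn (Multiplicative.ofAdd (((i : ℕ) : ℤ) * ((c : ℤ) + 1), 0)) (yB nn c k) with hβi
  set βj := shift nn (Multiplicative.ofAdd (((j : ℕ) : ℤ) * ((c : ℤ) + 1), 0)) (yB nn c k) with hβj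
  have h5 : ((βi k (pt k + red k (((i : ℕ) : ℤ) * ((c : ℤ) + 1), 0)))⁻¹ *
      βj k (pt k + red k (((i : ℕ) : ℤ) * ((c : ℤ) + 1), 0))) ^ 2 = 1 :=
    sq_eq βi βj _ _ (hK2 _ h2) k _
  have h6 : βi k (pt k + red k (((i : ℕ) : ℤ) * ((c : ℤ) + 1), 0)) = r (-1) := by
    rw [hβi, shift_apply, add_sub_cancel_right]
    exact yB_at_pt nn hk1 hN
  have h7 : βj k (pt k + red k (((i : ℕ) : ℤ) * ((c : ℤ) + 1), 0)) = 1 := by
    rw [hβj, shift_apply, add_sub_assoc, ← map_sub]
    have h8 : ((((i : ℕ) : ℤ) * ((c : ℤ) + 1), (0 : ℤ)) - (((j : ℕ) : ℤ) * ((c : ℤ) + 1), 0)) =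
        ((((i : ℕ) : ℤ) - ((j : ℕ) : ℤ)) * ((c : ℤ) + 1), (0 : ℤ)) := by
      ext
      · simp; ring
      · simp
    rw [h8]
    have hij' : (i : ℕ) < (j : ℕ) := hij
    have hj' : (j : ℕ) ≤ f := Nat.le_of_lt_succ j.2
    have h9 : (((i : ℕ) : ℤ) - ((j : ℕ) : ℤ)) * ((c : ℤ) + 1) < 0 :=
      mul_neg_of_neg_of_pos (by omega) (by positivity)
    refine yB_pt_line nn hk1 (Or.inl h9) ?_
    rw [abs_of_neg h9]
    have h10 : -((((i : ℕ) : ℤ) - ((j : ℕ) : ℤ)) * ((c : ℤ) + 1)) ≤ (f : ℤ) * ((c : ℤ) + 1) := by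
      rw [← neg_mul]
      apply mul_le_mul_of_nonneg_right _ (by positivity)
      omega
    have h11 : ((k : ℕ) : ℤ) = (f : ℤ) * ((c : ℤ) + 1) + c + 2 := by
      rw [hkdef]; push_cast; ring
    have h12 : (k : ℤ) < (Nn k : ℤ) := by exact_mod_cast hkN
    linarith
  rw [h6, h7, mul_one, inv_r, neg_neg, r_pow] at h5
  have h8 : (1 : ZMod 4) * ((2 : ℕ) : ZMod 4) = 0 := DihedralGroup.r.inj h5
  exact absurd h8 (by decide)

/-- There is a finitely generated soluble group `G` such that for every infinite subset `S` of `G`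
there are distinct `x, y ∈ S` for which the subgroup generated by `x` and `y⁻¹ x y` has a normal
subgroup of exponent dividing `2` with nilpotent quotient, while `G` itself has no normal subgroup
of exponent dividing `2` whose quotient is finite-by-nilpotent. -/
theorem result : ∃ (G : Type) (_ : Group G), Group.FG G ∧ Group.IsSolvable G ∧
    (∀ S : Set G, S.Infinite → ∃ x ∈ S, ∃ y ∈ S, x ≠ y ∧
      ExponentByNilpotent 2 (Subgroup.closure ({x, y⁻¹ * x * y} : Set G))) ∧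
    ¬ ExponentByFiniteByNilpotent 2 G := by
  refine ⟨G nn, inferInstance, fg nn, solvable_G nn, fun S hS => ?_, negative⟩
  obtain ⟨x, hx⟩ := hS.nonempty
  obtain ⟨y, hy⟩ := (hS.diff (Set.finite_singleton x)).nonempty
  refine ⟨x, hx, y, hy.1, fun h => hy.2 (by simp [h]), ?_⟩
  obtain ⟨K₀, hK₀⟩ := exists_good nn x.2 y.2
  refine positive _ K₀ fun g hg k hk p => hK₀ _ ?_ k hk p
  have h1 := Subgroup.mem_map_of_mem (G nn).subtype hg
  rw [MonoidHom.map_closure, Set.image_pair] at h1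
  exact h1

end Pool.Agent.Results.MP_e0c8e7_al.ParabolaDihedral
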